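import Pool.Agent.EDG.StmtsC

/-!
EDG, row DUA: dual numbers at a common zero.
-/

set_option autoImplicit false

namespace Pool.Agent.EDG.H41

open Polynomial Pool.Agent.EDG.C

theorem dua : DuaStmt := by
  intro R Q L c0 x0 a b hR hQ
  have key : ∀ P : ℂ[X][X],
      (ev (Polynomial.C c0 + Polynomial.C a * X) (Polynomial.C x0 + Polynomial.C b * X) P).eval 0
        = ev c0 x0 P := by
    intro P
    have h : ((evalRingHom (0 : ℂ)).comp
        (ev (Polynomial.C c0 + Polynomial.C a * X) (Polynomial.C x0 + Polynomial.C b * X)))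
        = ev c0 x0 := by
      apply Polynomial.ringHom_ext'
      · apply Polynomial.ringHom_ext'
        · ext z
          simp [ev]
        · simp [ev]
      · simp [ev]
    exact RingHom.congr_fun h P
  have hd : ∀ P : ℂ[X][X], ev c0 x0 P = 0 →
      X ∣ ev (Polynomial.C c0 + Polynomial.C a * X) (Polynomial.C x0 + Polynomial.C b * X) P := by
    intro P h
    rw [X_dvd_iff, coeff_zero_eq_eval_zero, key, h]
  rw [map_mul, map_mul, pow_two]
  exact Dvd.dvd.mul_right (mul_dvd_mul (hd R hR) (hd Q hQ)) _

end Pool.Agent.EDG.H41
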