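import Pool.Agent.EDG.Stmts

/-!
EDG, row HBA: multiplication by `h e` in the filtration.
-/

set_option autoImplicit false

namespace Pool.Agent.EDG.H41

open Polynomial Finset Pool.Agent.EDG

theorem hba_lin {N d d' D : ℕ} (P : ℕ → ℤ[X]) (f : ℕ → ℤ[X][X])
    (hP : ∀ e, (P e).degree < (d : WithBot ℕ)) (hf : ∀ e, ∃ N', InF N' d' (f e))
    (hD : d + d' - 1 ≤ D) : ∃ N', InF N' D (∑ e ∈ range N, C (P e) * f e) := by
  choose M hM using hf
  refine ⟨(range N).sup M, ?_⟩
  apply InF.sum
  intro e he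
  exact ((hM e).mulC (P e) (hP e)).mono (Finset.le_sup (f := M) he) hD

theorem hba_deg : (2 * X : ℤ[X]).degree < ((2 : ℕ) : WithBot ℕ) := by
  have h1 : (2 * X : ℤ[X]) = C 2 * X := by rw [C_ofNat]
  rw [h1]
  refine lt_of_le_of_lt (degree_C_mul_X_le _) ?_
  norm_num

theorem hba_deg' : (-(2 * X) : ℤ[X]).degree < ((2 : ℕ) : WithBot ℕ) := by
  rw [degree_neg]
  exact hba_deg

/-- `y ^ 2 (p ∘ F) = (y p) ∘ F - 2 X y (p ∘ F)`. -/
theorem hba_sq (p : ℤ[X][X]) : X * (X * p.comp F)
    = (X * p).comp F + C (-(2 * X)) * (X * p.comp F) := by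
  rw [mul_comp, X_comp, C_neg]
  have hF : F = X * X + C (2 * X) * X := by rw [F, sq]
  calc X * (X * p.comp F)
      = (X * X + C (2 * X) * X) * p.comp F + -(C (2 * X) : ℤ[X][X]) * (X * p.comp F) := by
        ring
    _ = _ := by rw [← hF]

theorem hba_X_h (k : ℕ) : ∃ N', InF N' 2 (X * h k) := by
  induction k using Nat.strong_induction_on with
  | _ k ih =>
    rcases Nat.even_or_odd' k with ⟨j, hj | hj⟩
    · subst hj
      refine ⟨2 * j + 1 + 1, ?_⟩
      rw [h_two_mul, ← h_two_mul_add_one]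
      exact (InF_h (2 * j + 1)).mono le_rfl (by norm_num)
    · subst hj
      obtain ⟨N', hN'⟩ := ih j (by omega)
      refine ⟨max (2 * N') (2 * j + 1 + 1), ?_⟩
      rw [h_two_mul_add_one, hba_sq]
      refine InF.add (hN'.comp_F.mono (le_max_left _ _) le_rfl) ?_
      rw [← h_two_mul_add_one]
      exact ((InF_h (2 * j + 1)).mulC (-(2 * X)) hba_deg').mono (le_max_right _ _) (by norm_num)

theorem hba_X {N d : ℕ} {p : ℤ[X][X]} (hp : InF N d p) : ∃ N', InF N' (d + 1) (X * p) := by
  obtain ⟨P, h1, h2⟩ := hp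
  have h3 : X * p = ∑ e ∈ range N, C (P e) * (X * h e) := by
    rw [h2, mul_sum]
    exact sum_congr rfl fun e _ => by ring
  rw [h3]
  exact hba_lin P (fun e => X * h e) h1 hba_X_h (by omega)

theorem hba_both {N d : ℕ} {q : ℤ[X][X]} (hq : InF N d q) :
    ∃ N', InF N' (d + 1) (X * (X * q.comp F)) := by
  obtain ⟨M, hM⟩ := hba_X hq
  rw [hba_sq]
  refine ⟨max (2 * M) (2 * N), ?_⟩
  refine InF.add (hM.comp_F.mono (le_max_left _ _) le_rfl) ?_
  exact (hq.X_mul_comp_F.mulC (-(2 * X)) hba_deg').mono (le_max_right _ _) (by omega)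

theorem hba_hh (e : ℕ) : ∀ k, ∃ N', InF N' (1 + Nat.size e) (h e * h k) := by
  induction e using Nat.strong_induction_on with
  | _ e ih =>
    intro k
    rcases Nat.eq_zero_or_pos e with h0 | h0
    · subst h0
      rw [h_zero, one_mul, Nat.size_zero]
      exact ⟨_, InF_h k⟩
    rcases Nat.even_or_odd' e with ⟨i, hi | hi⟩
    · have hs : Nat.size e = Nat.size i + 1 := by
        have hb : Nat.bit false i = e := by rw [hi]; simp [Nat.bit]
        rw [← hb, Nat.size_bit (by rw [hb]; omega)]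
      obtain ⟨j, hj⟩ := Nat.even_or_odd' k
      obtain ⟨N', hN'⟩ := ih i (by omega) j
      rcases hj with hj | hj
      · refine ⟨2 * N', ?_⟩
        rw [hi, hj, h_two_mul, h_two_mul, ← mul_comp]
        rw [← hi, hs]
        exact hN'.comp_F.mono le_rfl (by omega)
      · refine ⟨2 * N', ?_⟩
        have e1 : h e * h k = X * (h i * h j).comp F := by
          rw [hi, hj, h_two_mul, h_two_mul_add_one, mul_comp]; ring
        rw [e1, hs]
        exact hN'.X_mul_comp_F.mono le_rfl (by omega)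
    · have hs : Nat.size e = Nat.size i + 1 := by
        have hb : Nat.bit true i = e := by rw [hi]; simp [Nat.bit]
        rw [← hb, Nat.size_bit (by rw [hb]; omega)]
      obtain ⟨j, hj⟩ := Nat.even_or_odd' k
      obtain ⟨N', hN'⟩ := ih i (by omega) j
      rcases hj with hj | hj
      · refine ⟨2 * N', ?_⟩
        have e1 : h e * h k = X * (h i * h j).comp F := by
          rw [hi, hj, h_two_mul, h_two_mul_add_one, mul_comp]; ring
        rw [e1, hs]
        exact hN'.X_mul_comp_F.mono le_rfl (by omega)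
      · obtain ⟨M, hM⟩ := hba_both hN'
        refine ⟨M, ?_⟩
        have e1 : h e * h k = X * (X * (h i * h j).comp F) := by
          rw [hi, hj, h_two_mul_add_one, h_two_mul_add_one, mul_comp]; ring
        rw [e1, hs]
        exact hM.mono le_rfl (by omega)

theorem hba : HbaStmt := by
  intro e N d p hp
  obtain ⟨P, h1, h2⟩ := hp
  have h3 : h e * p = ∑ j ∈ range N, C (P j) * (h e * h j) := by
    rw [h2, mul_sum]
    exact sum_congr rfl fun j _ => by ring
  rw [h3]
  exact hba_lin P (fun j => h e * h j) h1 (hba_hh e) (by omega)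

end Pool.Agent.EDG.H41
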